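import Pool.Agent.H67.HM.Stm

open Polynomial MeasureTheory Filter Topology

namespace HM
namespace FLAT_aux

noncomputable def E (m x : ℝ) : ℂ := Complex.exp (Complex.I * (m * x ^ 2))

lemma norm_E (m x : ℝ) : ‖E m x‖ = 1 := by
  have : Complex.I * ((m : ℂ) * (x : ℂ) ^ 2) = ((m * x ^ 2 : ℝ) : ℂ) * Complex.I := by
    push_cast; ring
  rw [E, this, Complex.norm_exp_ofReal_mul_I]

lemma continuous_E (m : ℝ) : Continuous (E m) := by
  unfold E
  fun_prop

/-- the chirp on the circle `ℝ/ℤ` -/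
noncomputable def V (n : ℕ) : C(AddCircle (1:ℝ), ℂ) :=
  ⟨AddCircle.liftIco (1:ℝ) (-(1/2)) (E (Real.pi * n)), AddCircle.liftIco_continuous
    (by simp only [E]; norm_num) (continuous_E _).continuousOn⟩

noncomputable def J (n : ℕ) (y : ℝ) : ℂ :=
  ∫ t in (-(1/2) - y)..(1/2 - y), E (Real.pi * n) t

noncomputable def cf (n : ℕ) (k : ℤ) : ℂ := fourierCoeff (V n) k

lemma cf_eq (n : ℕ) (hn : 1 ≤ n) (k : ℤ) :
    cf n k = Complex.exp (-(Complex.I * (Real.pi * k ^ 2 / n))) * J n (k / n) := by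
  have hnc : (n : ℂ) ≠ 0 := by
    have : n ≠ 0 := by omega
    exact_mod_cast this
  unfold cf
  change fourierCoeff (AddCircle.liftIco (1:ℝ) (-(1/2)) (E (Real.pi * n))) k = _
  rw [fourierCoeff_liftIco_eq, fourierCoeffOn_eq_integral]
  have e1 : (-(1/2) + 1 : ℝ) - -(1/2) = 1 := by norm_num
  have e2 : (-(1/2) + 1 : ℝ) = 1/2 := by norm_num
  rw [e1, e2]
  simp only [div_one, one_smul, smul_eq_mul]
  have hpt : ∀ x : ℝ, (fourier (-k) (x : AddCircle (1 : ℝ)) : ℂ) *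
      E (Real.pi * n) x = Complex.exp (-(Complex.I * (Real.pi * k ^ 2 / n))) *
        E (Real.pi * n) (x - k / n) := by
    intro x
    rw [fourier_coe_apply, E, E, ← Complex.exp_add, ← Complex.exp_add]
    congr 1
    push_cast
    field_simp
    ring
  rw [intervalIntegral.integral_congr (g := fun x : ℝ =>
    Complex.exp (-(Complex.I * (Real.pi * k ^ 2 / n))) * E (Real.pi * n) (x - k / n))
    (fun x _ => hpt x), intervalIntegral.integral_const_mul]
  congr 1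
  rw [intervalIntegral.integral_comp_sub_right (fun t => E (Real.pi * n) t) ((k : ℝ) / n)]
  rfl

lemma norm_cf (n : ℕ) (hn : 1 ≤ n) (k : ℤ) : ‖cf n k‖ = ‖J n (k / n)‖ := by
  rw [cf_eq n hn k, norm_mul]
  have : (-(Complex.I * (Real.pi * (k : ℂ) ^ 2 / n))) =
      ((-(Real.pi * (k : ℝ) ^ 2 / n) : ℝ) : ℂ) * Complex.I := by
    push_cast; ring
  rw [this, Complex.norm_exp_ofReal_mul_I, one_mul]

lemma J_neg (n : ℕ) (y : ℝ) : J n (-y) = J n y := by
  unfold J
  have h := intervalIntegral.integral_comp_neg (a := -(1/2) - y) (b := 1/2 - y)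
    (f := E (Real.pi * n))
  have hE : ∀ x, E (Real.pi * n) (-x) = E (Real.pi * n) x := by
    intro x; simp [E]
  simp only [hE] at h
  rw [h]
  congr 1 <;> ring

section
variable (C : ℝ) (hC : 0 < C)
  (h1 : ∀ m a b : ℝ, 0 < m → a ≤ b → ‖∫ x in a..b, Complex.exp (Complex.I * (m * x ^ 2))‖ ≤ C / √m)
  (h2 : ∀ (m a b : ℝ) (k : ℤ), 0 < m → a < b → b < 0 → m * (a ^ 2 - b ^ 2) = 2 * Real.pi * k →
    ‖∫ x in a..b, Complex.exp (Complex.I * (m * x ^ 2))‖ ≤ C * (b - a) / (m * (a * b)))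

include hC h1 in
lemma bd1 (n : ℕ) (hn : 1 ≤ n) (k : ℤ) : ‖cf n k‖ ≤ C / √n := by
  rw [norm_cf n hn k]
  have hn0 : (0:ℝ) < n := by exact_mod_cast hn
  have hpn : (0:ℝ) < Real.pi * n := by positivity
  have h := h1 (Real.pi * n) (-(1/2) - (k:ℝ) / n) (1/2 - (k:ℝ) / n) hpn (by linarith)
  have h' : ‖J n (k / n)‖ ≤ C / √(Real.pi * n) := h
  refine h'.trans ?_
  apply div_le_div_of_nonneg_left hC.le (Real.sqrt_pos.2 hn0)
  apply Real.sqrt_le_sqrt
  nlinarith [Real.pi_gt_three]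

include hC h2 in
lemma bdJ (n : ℕ) (hn : 1 ≤ n) (k : ℤ) (hk : (n : ℤ) ≤ k) :
    ‖J n (k / n)‖ ≤ C * n / (k : ℝ) ^ 2 := by
  have hn0 : (0:ℝ) < n := by exact_mod_cast hn
  have hk0 : (n:ℝ) ≤ k := by exact_mod_cast hk
  have hkp : (0:ℝ) < k := by linarith
  have hpn : (0:ℝ) < Real.pi * n := by positivity
  have hkn : 1 ≤ (k:ℝ) / n := by rw [le_div_iff₀ hn0]; linarith
  have h := h2 (Real.pi * n) (-(1/2) - (k:ℝ) / n) (1/2 - (k:ℝ) / n) k hpn (by linarith)
    (by linarith) (by field_simp; ring)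
  have h' : ‖J n (k / n)‖ ≤ C * ((1/2 - (k:ℝ) / n) - (-(1/2) - (k:ℝ) / n)) /
    ((Real.pi * n) * ((-(1/2) - (k:ℝ) / n) * (1/2 - (k:ℝ) / n))) := h
  refine h'.trans ?_
  have e1 : (1/2 - (k:ℝ) / n) - (-(1/2) - (k:ℝ) / n) = 1 := by ring
  have e2 : (-(1/2) - (k:ℝ) / n) * (1/2 - (k:ℝ) / n) = ((k:ℝ)/n)^2 - 1/4 := by ring
  rw [e1, e2, mul_one]
  have e3 : (3/4) * ((k:ℝ)/n)^2 ≤ ((k:ℝ)/n)^2 - 1/4 := by nlinarith
  have e4 : C * n / (k:ℝ)^2 = C / (n * ((k:ℝ)/n)^2) := by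
    field_simp
  rw [e4]
  apply div_le_div_of_nonneg_left hC.le (by positivity)
  have h3 : 0 < ((k:ℝ)/n)^2 := by positivity
  calc (n:ℝ) * ((k:ℝ)/n)^2 ≤ (Real.pi * (3/4)) * (n * ((k:ℝ)/n)^2) := by
        have : 1 ≤ Real.pi * (3/4) := by nlinarith [Real.pi_gt_three]
        have h5 : 0 ≤ (n:ℝ) * ((k:ℝ)/n)^2 := by positivity
        nlinarith
    _ = Real.pi * n * ((3/4) * ((k:ℝ)/n)^2) := by ring
    _ ≤ _ := by gcongr

include hC h2 in
lemma bd2 (n : ℕ) (hn : 1 ≤ n) (k : ℤ) (hk : (n : ℤ) ≤ |k|) :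
    ‖cf n k‖ ≤ C * n / (k : ℝ) ^ 2 := by
  rw [norm_cf n hn k]
  rcases le_total 0 k with h | h
  · rw [abs_of_nonneg h] at hk
    exact bdJ C hC h2 n hn k hk
  · rw [abs_of_nonpos h] at hk
    have := bdJ C hC h2 n hn (-k) hk
    push_cast at this
    rw [neg_div, J_neg, neg_sq] at this
    exact this

include hC h2 in
lemma summ (n : ℕ) (hn : 1 ≤ n) : Summable (fourierCoeff (V n)) := by
  have hs : Summable (fun k : ℤ => C * n / (k : ℝ) ^ 2) := by
    have := (Real.summable_one_div_int_pow (p := 2)).2 (by norm_num)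
    have h3 := this.mul_left (C * n)
    refine h3.congr (fun k => ?_)
    ring
  refine Summable.of_norm_bounded_eventually hs ?_
  have hfin : (Set.Ioo (-(n:ℤ)) n).Finite := Set.finite_Ioo _ _
  rw [Filter.eventually_cofinite]
  refine hfin.subset ?_
  intro k hk
  simp only [Set.mem_ofPred_eq, not_le] at hk
  by_contra hcon
  have : (n:ℤ) ≤ |k| := by
    rw [Set.mem_Ioo, not_and_or] at hcon
    rcases hcon with h | h
    · push Not at h
      have := neg_abs_le k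
      omega
    · push Not at h
      exact h.trans (le_abs_self k)
  exact absurd (bd2 C hC h2 n hn k this) (not_le.2 hk)

/-- symmetric partial sums -/
noncomputable def S (n N : ℕ) (x : AddCircle (1:ℝ)) : ℂ :=
  ∑ k ∈ Finset.Icc (-(N:ℤ)) N, cf n k * fourier k x

include hC h2 in
lemma step (n N : ℕ) (hn : 1 ≤ n) (hN : n ≤ N) (x : AddCircle (1:ℝ)) :
    ‖S n (N+1) x - S n N x‖ ≤ 2 * C * n * (1 / N - 1 / (N + 1)) := by
  have hset : Finset.Icc (-((N+1:ℕ):ℤ)) ((N+1:ℕ):ℤ) =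
      insert (-((N+1:ℕ):ℤ)) (insert ((N+1:ℕ):ℤ) (Finset.Icc (-(N:ℤ)) N)) := by
    ext a
    simp only [Finset.mem_Icc, Finset.mem_insert]
    push_cast
    omega
  have e : S n (N+1) x - S n N x = cf n (-((N+1:ℕ):ℤ)) * fourier (-((N+1:ℕ):ℤ)) x +
      cf n ((N+1:ℕ):ℤ) * fourier ((N+1:ℕ):ℤ) x := by
    unfold S
    rw [hset, Finset.sum_insert, Finset.sum_insert]
    · ring
    · simp only [Finset.mem_Icc]; push_cast; omega
    · simp only [Finset.mem_Icc, Finset.mem_insert]; push_cast; omega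
  rw [e]
  refine (norm_add_le _ _).trans ?_
  rw [norm_mul, norm_mul]
  have f1 : ∀ k : ℤ, ‖(fourier k x : ℂ)‖ = 1 := by
    intro k
    rw [fourier_apply]
    exact Circle.norm_coe _
  rw [f1, f1, mul_one, mul_one]
  have b1 := bd2 C hC h2 n hn (-((N+1:ℕ):ℤ)) (by rw [abs_neg, abs_of_nonneg] <;> push_cast <;> omega)
  have b2 := bd2 C hC h2 n hn ((N+1:ℕ):ℤ) (by rw [abs_of_nonneg] <;> push_cast <;> omega)
  have hN0 : (0:ℝ) < N := by
    have : 0 < N := by omega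
    exact_mod_cast this
  have hn0 : (0:ℝ) < n := by exact_mod_cast hn
  push_cast at b1 b2
  have e3 : (-(1:ℝ) + -N) ^ 2 = (N + 1) ^ 2 := by ring
  have e3' : (-((N:ℝ) + 1)) ^ 2 = (N + 1) ^ 2 := by ring
  have key : C * n / ((N:ℝ)+1)^2 ≤ C * n * (1 / N - 1 / (N + 1)) := by
    have : (1:ℝ) / N - 1 / (N + 1) = 1 / (N * (N + 1)) := by field_simp; ring
    rw [this, div_eq_mul_one_div]
    apply mul_le_mul_of_nonneg_left _ (by positivity)
    apply one_div_le_one_div_of_le (by positivity)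
    nlinarith
  have b1' : ‖cf n (-((N+1:ℕ):ℤ))‖ ≤ C * n / ((N:ℝ)+1)^2 := by
    refine b1.trans (le_of_eq ?_)
    congr 1
    try first | exact e3 | exact e3' | ring
  have b2' : ‖cf n ((N+1:ℕ):ℤ)‖ ≤ C * n / ((N:ℝ)+1)^2 := b2
  calc _ ≤ C * n / ((N:ℝ)+1)^2 + C * n / ((N:ℝ)+1)^2 := add_le_add b1' b2'
    _ ≤ C * n * (1 / N - 1 / (N + 1)) + C * n * (1 / N - 1 / (N + 1)) := add_le_add key key
    _ = _ := by ring

include hC h2 in
lemma tail (n N : ℕ) (hn : 1 ≤ n) (hN : n ≤ N) (x : AddCircle (1:ℝ)) (d : ℕ) :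
    ‖S n (N+d) x - S n N x‖ ≤ 2 * C * n * (1 / N - 1 / (N + d : ℕ)) := by
  induction d with
  | zero => simp
  | succ d ih =>
    have h := step C hC h2 n (N+d) hn (by omega) x
    have e : S n (N+(d+1)) x - S n N x = (S n (N+d+1) x - S n (N+d) x) +
        (S n (N+d) x - S n N x) := by
      rw [← add_assoc]; ring
    rw [e]
    refine (norm_add_le _ _).trans ((add_le_add h ih).trans (le_of_eq ?_))
    push_cast
    ring

include hC h2 in
lemma approx (n N : ℕ) (hn : 1 ≤ n) (hN : n ≤ N) (x : AddCircle (1:ℝ)) :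
    ‖V n x - S n N x‖ ≤ 2 * C * n / N := by
  have hs := has_pointwise_sum_fourier_series_of_summable (summ C hC h2 n hn) x
  have ht : Tendsto (fun M : ℕ => S n M x) atTop (𝓝 (V n x)) := by
    have h3 : Tendsto (fun M : ℕ => Finset.Icc (-(M:ℤ)) M) atTop atTop := by
      apply tendsto_atTop_finset_of_monotone
      · intro a b hab
        apply Finset.Icc_subset_Icc <;> simp [hab]
      · intro k
        refine ⟨k.natAbs, ?_⟩
        rw [Finset.mem_Icc]
        omega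
    have := hs.comp h3
    exact this
  have ht2 : Tendsto (fun d : ℕ => ‖S n (N+d) x - S n N x‖) atTop (𝓝 ‖V n x - S n N x‖) := by
    have h4 : Tendsto (fun d : ℕ => S n (N+d) x) atTop (𝓝 (V n x)) := by
      have := ht.comp (tendsto_add_atTop_nat N)
      refine this.congr (fun d => ?_)
      simp [add_comm]
    exact (h4.sub_const _).norm
  refine le_of_tendsto' ht2 (fun d => ?_)
  refine (tail C hC h2 n N hn hN x d).trans ?_
  have hn0 : (0:ℝ) < n := by exact_mod_cast hn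
  have : (0:ℝ) ≤ 1 / ((N + d : ℕ) : ℝ) := by positivity
  calc 2 * C * n * (1 / N - 1 / ((N + d : ℕ) : ℝ)) ≤ 2 * C * n * (1 / N) := by
        apply mul_le_mul_of_nonneg_left _ (by positivity)
        linarith
    _ = _ := by ring

end

lemma norm_V (n : ℕ) (x : AddCircle (1:ℝ)) : ‖V n x‖ = 1 := by
  obtain ⟨y, hy, rfl⟩ : ∃ y ∈ Set.Ico (-(1/2) : ℝ) (-(1/2) + 1), (y : AddCircle (1:ℝ)) = x := by
    have := AddCircle.coe_image_Ico_eq (1:ℝ) (-(1/2))
    have hx : x ∈ (Set.univ : Set (AddCircle (1:ℝ))) := Set.mem_univ x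
    rw [← this] at hx
    obtain ⟨y, hy, h⟩ := hx
    exact ⟨y, hy, h⟩
  change ‖AddCircle.liftIco (1:ℝ) (-(1/2)) (E (Real.pi * n)) (y : AddCircle (1:ℝ))‖ = 1
  rw [AddCircle.liftIco_coe_apply hy, norm_E]

/-- the polynomial -/
noncomputable def pc (n κ : ℕ) : ℂ[X] :=
  ∑ j ∈ Finset.range (2 * κ + 1), Polynomial.C (cf n ((j : ℤ) - κ)) * X ^ j

lemma pc_coeff (n κ k : ℕ) : (pc n κ).coeff k =
    if k < 2 * κ + 1 then cf n ((k : ℤ) - κ) else 0 := by
  unfold pc
  rw [Polynomial.finsetSum_coeff]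
  simp only [Polynomial.coeff_C_mul_X_pow]
  rw [Finset.sum_ite_eq]
  simp

lemma pc_eval (n κ : ℕ) (y : ℝ) :
    ‖(pc n κ).eval (Complex.exp (2 * Real.pi * Complex.I * y))‖ = ‖S n κ (y : AddCircle (1:ℝ))‖ := by
  have h : (pc n κ).eval (Complex.exp (2 * Real.pi * Complex.I * y)) =
      Complex.exp (2 * Real.pi * Complex.I * y * κ) * S n κ (y : AddCircle (1:ℝ)) := by
    unfold pc S
    rw [Polynomial.eval_finsetSum, Finset.mul_sum]
    refine Finset.sum_bij (fun (j : ℕ) _ => (j : ℤ) - κ) ?_ ?_ ?_ ?_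
    · intro j hj
      rw [Finset.mem_range] at hj
      rw [Finset.mem_Icc]
      omega
    · intro a _ b _ hab
      simpa using hab
    · intro b hb
      rw [Finset.mem_Icc] at hb
      refine ⟨(b + κ).toNat, ?_, ?_⟩
      · rw [Finset.mem_range]; omega
      · omega
    · intro j hj
      rw [Polynomial.eval_mul, Polynomial.eval_C, Polynomial.eval_pow, Polynomial.eval_X,
        fourier_coe_apply, ← Complex.exp_nat_mul]
      have : Complex.exp (2 * Real.pi * Complex.I * y * κ) * (cf n ((j:ℤ) - κ) *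
          Complex.exp (2 * Real.pi * Complex.I * (((j:ℤ) - κ : ℤ) : ℂ) * y / (1:ℝ))) =
          cf n ((j:ℤ) - κ) * (Complex.exp (2 * Real.pi * Complex.I * y * κ) *
            Complex.exp (2 * Real.pi * Complex.I * (((j:ℤ) - κ : ℤ) : ℂ) * y / (1:ℝ))) := by ring
      rw [this, ← Complex.exp_add]
      congr 2
      push_cast
      ring
  rw [h, norm_mul]
  have : (2 * Real.pi * Complex.I * y * κ : ℂ) = ((2 * Real.pi * y * κ : ℝ) : ℂ) * Complex.I := by
    push_cast; ring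
  rw [this, Complex.norm_exp_ofReal_mul_I, one_mul]

end FLAT_aux

open FLAT_aux in
theorem FLAT_proved (hFRE : S_FRE) : S_FLAT := by
  obtain ⟨C₀, hC₀, H1, H2⟩ := hFRE
  obtain ⟨C, hC1, h1, h2⟩ : ∃ C : ℝ, 1 ≤ C ∧
    (∀ m a b : ℝ, 0 < m → a ≤ b → ‖∫ x in a..b, Complex.exp (Complex.I * (m * x ^ 2))‖ ≤ C / √m) ∧
    (∀ (m a b : ℝ) (k : ℤ), 0 < m → a < b → b < 0 → m * (a ^ 2 - b ^ 2) = 2 * Real.pi * k →
      ‖∫ x in a..b, Complex.exp (Complex.I * (m * x ^ 2))‖ ≤ C * (b - a) / (m * (a * b))) := by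
    refine ⟨max C₀ 1, le_max_right _ _, ?_, ?_⟩
    · intro m a b hm hab
      refine (H1 m a b hm hab).trans ?_
      gcongr
      exact le_max_left _ _
    · intro m a b k hm hab hb hk
      refine (H2 m a b k hm hab hb hk).trans ?_
      have ha : a < 0 := hab.trans hb
      have : 0 < a * b := mul_pos_of_neg_of_neg ha hb
      have hba : 0 ≤ b - a := by linarith
      gcongr
      exact le_max_left _ _
  have hC : 0 < C := by linarith
  refine ⟨6 * C + 1, by positivity, ?_⟩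
  intro n η hn hη hη1
  have hn0 : (0:ℝ) < n := by exact_mod_cast hn
  have hn1 : (1:ℝ) ≤ n := by exact_mod_cast hn
  have hq : 0 < 6 * C * n / η := by positivity
  obtain ⟨κ, hκ⟩ : ∃ κ : ℕ, κ = ⌈6 * C * n / η⌉₊ := ⟨_, rfl⟩
  have hκ1 : 6 * C * n / η ≤ κ := by rw [hκ]; exact Nat.le_ceil _
  have hκ2 : (κ:ℝ) ≤ 6 * C * n / η + 1 := by rw [hκ]; exact (Nat.ceil_lt_add_one hq.le).le
  have hκ0 : (0:ℝ) < κ := lt_of_lt_of_le hq hκ1
  have hnκ : n ≤ κ := by
    have : (n:ℝ) ≤ κ := by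
      refine le_trans ?_ hκ1
      rw [le_div_iff₀ hη]
      nlinarith
    exact_mod_cast this
  refine ⟨pc n κ, κ, ?_, ?_, ?_, ?_, ?_⟩
  · refine hκ2.trans ?_
    have : 1 ≤ n / η := by rw [le_div_iff₀ hη]; linarith
    calc 6 * C * n / η + 1 ≤ 6 * C * n / η + n / η := by linarith
      _ = _ := by ring
  · rw [Polynomial.natDegree_le_iff_coeff_eq_zero]
    intro N hN
    rw [pc_coeff, if_neg (by omega)]
  · intro k
    rw [pc_coeff]
    split_ifs with h
    · refine (bd1 C hC h1 n hn _).trans ?_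
      gcongr
      linarith
    · rw [norm_zero]; positivity
  · intro k hk
    rw [pc_coeff]
    split_ifs with h
    · have hk' : (n:ℤ) ≤ |(k:ℤ) - κ| := by
        have : ((n:ℤ):ℝ) ≤ ((|(k:ℤ) - κ| : ℤ) : ℝ) := by
          push_cast
          exact hk
        exact_mod_cast this
      refine (bd2 C hC h2 n hn _ hk').trans ?_
      push_cast
      gcongr
      linarith
    · rw [norm_zero]; positivity
  · intro z hz
    obtain ⟨y, rfl⟩ : ∃ y : ℝ, z = Complex.exp (2 * Real.pi * Complex.I * y) := by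
      refine ⟨z.arg / (2 * Real.pi), ?_⟩
      have h3 := Complex.norm_mul_exp_arg_mul_I z
      rw [hz] at h3
      rw [← h3]
      push_cast
      rw [one_mul]
      have hz2 : ((1:ℂ) * Complex.exp (z.arg * Complex.I)) = z := by
        simpa using h3
      congr 1
      have hpi : (Real.pi : ℂ) ≠ 0 := by exact_mod_cast Real.pi_ne_zero
      rw [one_mul] at hz2
      rw [hz2]
      field_simp
    rw [pc_eval]
    have happ := approx C hC h2 n κ hn hnκ (y : AddCircle (1:ℝ))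
    have hV := norm_V n (y : AddCircle (1:ℝ))
    have hsm : 2 * C * n / κ ≤ η / 3 := by
      rw [div_le_iff₀ hκ0]
      rw [div_le_iff₀ hη] at hκ1
      nlinarith
    have h4 : |‖S n κ (y : AddCircle (1:ℝ))‖ - 1| ≤ η / 3 := by
      have h5 := abs_norm_sub_norm_le (S n κ (y : AddCircle (1:ℝ))) (V n (y : AddCircle (1:ℝ)))
      rw [hV, norm_sub_rev] at h5
      exact h5.trans (happ.trans hsm)
    obtain ⟨t, ht⟩ : ∃ t : ℝ, t = ‖S n κ (y : AddCircle (1:ℝ))‖ := ⟨_, rfl⟩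
    rw [← ht] at h4 ⊢
    rw [abs_le] at h4 ⊢
    constructor <;> nlinarith [h4.1, h4.2]

end HM
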