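import Pool.Agent.H67.HM.Stm

open Polynomial MeasureTheory Filter Topology

namespace HM
namespace FLN_aux

lemma sumA (n κ N : ℕ) (hn : 1 ≤ n) :
    ∑ k ∈ (Finset.range N).filter (fun k => k + n ≤ κ), ((((κ - k : ℕ) : ℝ)) ^ 2)⁻¹ ≤ 2 / n := by
  have hinj : Set.InjOn (fun k : ℕ => κ - k)
      ((Finset.range N).filter (fun k => k + n ≤ κ) : Finset ℕ) := by
    intro a ha b hb hab
    simp only [Finset.coe_filter, Set.mem_ofPred_eq] at ha hb
    simp only at hab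
    omega
  have h1 : ∑ k ∈ (Finset.range N).filter (fun k => k + n ≤ κ), ((((κ - k : ℕ) : ℝ)) ^ 2)⁻¹ =
      ∑ j ∈ ((Finset.range N).filter (fun k => k + n ≤ κ)).image (fun k : ℕ => κ - k),
        (((j : ℝ)) ^ 2)⁻¹ := by
    rw [Finset.sum_image hinj]
  rw [h1]
  have h2 : ((Finset.range N).filter (fun k => k + n ≤ κ)).image (fun k : ℕ => κ - k) ⊆
      Finset.Ioo (n - 1) (κ + 1) := by
    intro j hj
    simp only [Finset.mem_image, Finset.mem_filter, Finset.mem_range] at hj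
    obtain ⟨k, hk, rfl⟩ := hj
    rw [Finset.mem_Ioo]
    omega
  refine (Finset.sum_le_sum_of_subset_of_nonneg h2 (fun _ _ _ => by positivity)).trans ?_
  refine (sum_Ioo_inv_sq_le (n - 1) (κ + 1)).trans (le_of_eq ?_)
  congr 1
  have : ((n - 1 + 1 : ℕ) : ℝ) = n := by congr 1; omega
  push_cast at this
  exact this

lemma sumB (n κ N : ℕ) (hn : 1 ≤ n) :
    ∑ k ∈ (Finset.range N).filter (fun k => κ + n ≤ k), ((((k - κ : ℕ) : ℝ)) ^ 2)⁻¹ ≤ 2 / n := by
  have hinj : Set.InjOn (fun k : ℕ => k - κ)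
      ((Finset.range N).filter (fun k => κ + n ≤ k) : Finset ℕ) := by
    intro a ha b hb hab
    simp only [Finset.coe_filter, Set.mem_ofPred_eq] at ha hb
    simp only at hab
    omega
  have h1 : ∑ k ∈ (Finset.range N).filter (fun k => κ + n ≤ k), ((((k - κ : ℕ) : ℝ)) ^ 2)⁻¹ =
      ∑ j ∈ ((Finset.range N).filter (fun k => κ + n ≤ k)).image (fun k : ℕ => k - κ),
        (((j : ℝ)) ^ 2)⁻¹ := by
    rw [Finset.sum_image hinj]
  rw [h1]
  have h2 : ((Finset.range N).filter (fun k => κ + n ≤ k)).image (fun k : ℕ => k - κ) ⊆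
      Finset.Ioo (n - 1) (N + 1) := by
    intro j hj
    simp only [Finset.mem_image, Finset.mem_filter, Finset.mem_range] at hj
    obtain ⟨k, hk, rfl⟩ := hj
    rw [Finset.mem_Ioo]
    omega
  refine (Finset.sum_le_sum_of_subset_of_nonneg h2 (fun _ _ _ => by positivity)).trans ?_
  refine (sum_Ioo_inv_sq_le (n - 1) (N + 1)).trans (le_of_eq ?_)
  congr 1
  have : ((n - 1 + 1 : ℕ) : ℝ) = n := by congr 1; omega
  push_cast at this
  exact this

lemma main (s C : ℝ) (hs : 1 < s) (hC : 0 < C) (c : ℂ[X]) (n κ : ℕ) (hn : 1 ≤ n)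
    (h1 : ∀ k, ‖c.coeff k‖ ≤ C / √n)
    (h2 : ∀ k : ℕ, (n : ℝ) ≤ |(k : ℝ) - κ| → ‖c.coeff k‖ ≤ C * n / ((k : ℝ) - κ) ^ 2) :
    Bd s c.coeff (6 * C ^ s * (n : ℝ) ^ (1 - s / 2)) := by
  intro N
  have hn0 : (0:ℝ) < n := by exact_mod_cast hn
  have hn1 : (1:ℝ) ≤ n := by exact_mod_cast hn
  have hs0 : 0 < s := by linarith
  obtain ⟨a, ha⟩ : ∃ a : ℝ, a = C ^ s * (n:ℝ) ^ (-(s/2)) := ⟨_, rfl⟩
  obtain ⟨b, hb⟩ : ∃ b : ℝ, b = C ^ s * (n:ℝ) ^ (2 - s) := ⟨_, rfl⟩
  have ha0 : 0 ≤ a := by rw [ha]; positivity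
  have hb0 : 0 ≤ b := by rw [hb]; positivity
  have hA : ∀ k, ‖c.coeff k‖ ^ s ≤ a := by
    intro k
    calc ‖c.coeff k‖ ^ s ≤ (C / √n) ^ s := Real.rpow_le_rpow (norm_nonneg _) (h1 k) hs0.le
      _ = a := by
        rw [Real.div_rpow hC.le (Real.sqrt_nonneg _), Real.sqrt_eq_rpow, ← Real.rpow_mul hn0.le,
          ha, Real.rpow_neg hn0.le, div_eq_mul_inv]
        congr 3
        ring
  have hB : ∀ (k : ℕ) (j : ℝ), (n:ℝ) ≤ j → j ^ 2 = ((k:ℝ) - κ) ^ 2 →
      ‖c.coeff k‖ ^ s ≤ b * (j ^ 2)⁻¹ := by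
    intro k j hj hjk
    have hj0 : 0 < j := by linarith
    have habs : (n:ℝ) ≤ |(k:ℝ) - κ| := by
      rw [← Real.sqrt_sq_eq_abs, ← hjk, Real.sqrt_sq hj0.le]
      exact hj
    have h3 := h2 k habs
    rw [← hjk] at h3
    have h4 : (n:ℝ) / j ^ 2 ≤ 1 / n := by
      rw [div_le_div_iff₀ (by positivity) hn0]
      nlinarith
    have h5 : (0:ℝ) < n / j ^ 2 := by positivity
    calc ‖c.coeff k‖ ^ s ≤ (C * n / j ^ 2) ^ s := Real.rpow_le_rpow (norm_nonneg _) h3 hs0.le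
      _ = C ^ s * ((n:ℝ) / j ^ 2) ^ s := by
        rw [mul_div_assoc, Real.mul_rpow hC.le h5.le]
      _ = C ^ s * ((n / j ^ 2) * ((n:ℝ) / j ^ 2) ^ (s - 1)) := by
        congr 1
        have : ((n:ℝ) / j ^ 2) ^ s = (n / j ^ 2) ^ (1 + (s - 1)) := by congr 1; ring
        rw [this, Real.rpow_add h5, Real.rpow_one]
      _ ≤ C ^ s * ((n / j ^ 2) * ((1:ℝ) / n) ^ (s - 1)) := by
        apply mul_le_mul_of_nonneg_left _ (by positivity)
        apply mul_le_mul_of_nonneg_left _ (by positivity)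
        exact Real.rpow_le_rpow h5.le h4 (by linarith)
      _ = b * (j ^ 2)⁻¹ := by
        rw [hb, one_div, Real.inv_rpow hn0.le, ← Real.rpow_neg hn0.le]
        have : (n:ℝ) ^ (2 - s) = n * (n:ℝ) ^ (-(s - 1)) := by
          have h6 : (n:ℝ) ^ (2 - s) = (n:ℝ) ^ (1 + -(s - 1)) := by congr 1; ring
          rw [h6, Real.rpow_add hn0, Real.rpow_one]
        rw [this]
        ring
  have hpt : ∀ k : ℕ, ‖c.coeff k‖ ^ s ≤ (if κ < k + n ∧ k < κ + n then a else 0) +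
      (if k + n ≤ κ then b * ((((κ - k : ℕ) : ℝ)) ^ 2)⁻¹ else 0) +
      (if κ + n ≤ k then b * ((((k - κ : ℕ) : ℝ)) ^ 2)⁻¹ else 0) := by
    intro k
    by_cases hk1 : k + n ≤ κ
    · rw [if_neg (by omega), if_pos hk1, if_neg (by omega), zero_add, add_zero]
      apply hB k ((κ - k : ℕ) : ℝ)
      · have : n ≤ κ - k := by omega
        exact_mod_cast this
      · rw [Nat.cast_sub (by omega)]
        ring
    · by_cases hk2 : κ + n ≤ k
      · rw [if_neg (by omega), if_neg (by omega), if_pos hk2, zero_add, zero_add]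
        apply hB k ((k - κ : ℕ) : ℝ)
        · have : n ≤ k - κ := by omega
          exact_mod_cast this
        · rw [Nat.cast_sub (by omega)]
      · rw [if_pos (by omega), if_neg hk1, if_neg hk2, add_zero, add_zero]
        exact hA k
  have hsum := Finset.sum_le_sum (s := Finset.range N) (fun k _ => hpt k)
  simp only [Finset.sum_add_distrib, ← Finset.sum_filter, ← Finset.mul_sum, Finset.sum_const,
    nsmul_eq_mul] at hsum
  have hcard : (((Finset.range N).filter (fun k => κ < k + n ∧ k < κ + n)).card : ℝ) ≤ 2 * n := by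
    have : ((Finset.range N).filter (fun k => κ < k + n ∧ k < κ + n)).card ≤ 2 * n := by
      have hsub : (Finset.range N).filter (fun k => κ < k + n ∧ k < κ + n) ⊆
          Finset.Ico (κ + 1 - n) (κ + n) := by
        intro k hk
        simp only [Finset.mem_filter, Finset.mem_range] at hk
        rw [Finset.mem_Ico]
        omega
      refine (Finset.card_le_card hsub).trans ?_
      rw [Nat.card_Ico]
      omega
    exact_mod_cast this
  refine hsum.trans ?_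
  have e1 : (n:ℝ) * (n:ℝ) ^ (-(s/2)) = (n:ℝ) ^ (1 - s/2) := by
    rw [sub_eq_add_neg, Real.rpow_add hn0, Real.rpow_one]
  have e2 : (n:ℝ) ^ (2 - s) / n ≤ (n:ℝ) ^ (1 - s/2) := by
    have : (n:ℝ) ^ (2 - s) / n = (n:ℝ) ^ (1 - s) := by
      rw [div_eq_iff hn0.ne']
      have h6 : (n:ℝ) ^ (2 - s) = (n:ℝ) ^ ((1 - s) + 1) := by congr 1; ring
      rw [h6, Real.rpow_add hn0, Real.rpow_one]
    rw [this]
    apply Real.rpow_le_rpow_of_exponent_le hn1
    linarith
  have hCs : 0 < C ^ s := by positivity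
  calc _ ≤ 2 * n * a + b * (2 / n) + b * (2 / n) :=
        add_le_add (add_le_add (mul_le_mul_of_nonneg_right hcard ha0)
          (mul_le_mul_of_nonneg_left (sumA n κ N hn) hb0))
          (mul_le_mul_of_nonneg_left (sumB n κ N hn) hb0)
    _ = 2 * C ^ s * (n * (n:ℝ) ^ (-(s/2))) + 4 * C ^ s * ((n:ℝ) ^ (2 - s) / n) := by
        rw [ha, hb]; ring
    _ ≤ 2 * C ^ s * (n:ℝ) ^ (1 - s/2) + 4 * C ^ s * (n:ℝ) ^ (1 - s/2) := by
        rw [e1]
        gcongr
    _ = _ := by ring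

end FLN_aux

open FLN_aux in
theorem FLN_proved (hFLAT : S_FLAT) : S_FLN := by
  obtain ⟨C, hC, H⟩ := hFLAT
  intro r hr
  have hr1 : 0 < r - 1 := by linarith
  have hr' : 1 < r / (r - 1) := by
    rw [lt_div_iff₀ hr1]; linarith
  refine ⟨2 * C + 6 * C ^ r + 6 * C ^ (r / (r - 1)), by positivity, ?_⟩
  intro n η hn hη hη1
  obtain ⟨c, κ, hκ, hdeg, h1, h2, h3⟩ := H n η hn hη hη1
  have hn0 : (0:ℝ) < n := by exact_mod_cast hn
  have p1 : 0 < C ^ r := by positivity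
  have p2 : 0 < C ^ (r / (r - 1)) := by positivity
  refine ⟨c, ?_, ?_, ?_, h3⟩
  · have : (c.natDegree : ℝ) ≤ 2 * κ := by exact_mod_cast hdeg
    calc (c.natDegree : ℝ) ≤ 2 * κ := this
      _ ≤ 2 * (C * n / η) := by gcongr
      _ = 2 * C * n / η := by ring
      _ ≤ _ := by gcongr; linarith
  · intro N
    refine (main r C hr hC c n κ hn h1 h2 N).trans ?_
    gcongr
    linarith
  · intro N
    refine (main _ C hr' hC c n κ hn h1 h2 N).trans ?_
    gcongr
    linarith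

end HM
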