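import Pool.Agent.H67.HM.Stm

open Polynomial MeasureTheory Filter Topology

namespace HM
namespace FRE_aux

noncomputable def E (m x : ℝ) : ℂ := Complex.exp (Complex.I * (m * x ^ 2))

noncomputable def G (m x : ℝ) : ℂ := E m x / (2 * Complex.I * m * x)

lemma norm_E (m x : ℝ) : ‖E m x‖ = 1 := by
  have : Complex.I * ((m : ℂ) * (x : ℂ) ^ 2) = ((m * x ^ 2 : ℝ) : ℂ) * Complex.I := by
    push_cast; ring
  rw [E, this, Complex.norm_exp_ofReal_mul_I]

lemma continuous_E (m : ℝ) : Continuous (E m) := by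
  unfold E
  fun_prop

lemma hasDeriv_E (m x : ℝ) : HasDerivAt (E m) (E m x * (2 * Complex.I * m * x)) x := by
  unfold E
  have h1 : HasDerivAt (fun y : ℝ => (y : ℂ)) 1 x := Complex.ofRealCLM.hasDerivAt
  have h2 : HasDerivAt (fun y : ℝ => Complex.I * ((m : ℂ) * (y : ℂ) ^ 2))
      (Complex.I * (m * (2 * (x : ℂ) ^ 1 * 1))) x := by
    have := ((h1.pow 2).const_mul (m : ℂ)).const_mul Complex.I
    simpa using this
  have h3 := h2.cexp
  convert h3 using 1
  ring

lemma hasDeriv_G (m x : ℝ) (hm : m ≠ 0) (hx : x ≠ 0) :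
    HasDerivAt (G m) (E m x - E m x / (2 * Complex.I * m * x ^ 2)) x := by
  unfold G
  have h1 : HasDerivAt (fun y : ℝ => (y : ℂ)) 1 x := Complex.ofRealCLM.hasDerivAt
  have h2 : HasDerivAt (fun y : ℝ => 2 * Complex.I * (m : ℂ) * (y : ℂ)) (2 * Complex.I * m * 1) x :=
    h1.const_mul _
  have hmc : (m : ℂ) ≠ 0 := by exact_mod_cast hm
  have hxc : (x : ℂ) ≠ 0 := by exact_mod_cast hx
  have h0 : 2 * Complex.I * (m : ℂ) * (x : ℂ) ≠ 0 := by
    simp [hmc, hxc]
  have h3 : HasDerivAt (fun y : ℝ => E m y / (2 * Complex.I * m * y)) _ x :=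
    (hasDeriv_E m x).div h2 h0
  refine h3.congr_deriv ?_
  symm
  have hI : Complex.I ≠ 0 := Complex.I_ne_zero
  have e1 : (2 * Complex.I * (m : ℂ) * x) ^ 2 = 2 * Complex.I * m * (2 * Complex.I * m * x ^ 2) := by
    ring
  rw [eq_div_iff (pow_ne_zero 2 h0)]
  have h0' : 2 * Complex.I * (m : ℂ) * (x : ℂ) ^ 2 ≠ 0 := by
    simp [hmc, hxc]
  have e2 : E m x / (2 * Complex.I * m * x ^ 2) * (2 * Complex.I * (m : ℂ) * x) ^ 2 =
      2 * Complex.I * m * E m x := by
    rw [e1, div_mul_eq_mul_div, div_eq_iff h0']; ring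
  rw [sub_mul, e2]
  ring

lemma ibp (m a b : ℝ) (hm : 0 < m) (hab : a ≤ b) (h0 : 0 < a ∨ b < 0) :
    ‖(∫ x in a..b, E m x) - (G m b - G m a)‖ ≤ 1 / (2 * m) * (1 / a - 1 / b) := by
  have hne : ∀ x ∈ Set.uIcc a b, x ≠ 0 := by
    intro x hx
    rw [Set.uIcc_of_le hab] at hx
    rcases h0 with h | h
    · exact ne_of_gt (lt_of_lt_of_le h hx.1)
    · exact ne_of_lt (lt_of_le_of_lt hx.2 h)
  have hc2 : ContinuousOn (fun x : ℝ => E m x / (2 * Complex.I * m * x ^ 2)) (Set.uIcc a b) := by
    apply ContinuousOn.div (continuous_E m).continuousOn (by fun_prop)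
    intro x hx
    have hmc : (m : ℂ) ≠ 0 := by exact_mod_cast hm.ne'
    have hxc : (x : ℂ) ≠ 0 := by exact_mod_cast hne x hx
    simp [hmc, hxc]
  have hi2 := hc2.intervalIntegrable (μ := volume)
  have hi1 : IntervalIntegrable (E m) volume a b := (continuous_E m).intervalIntegrable a b
  have hft := intervalIntegral.integral_eq_sub_of_hasDerivAt
    (fun x hx => hasDeriv_G m x hm.ne' (hne x hx)) (hi1.sub hi2)
  rw [intervalIntegral.integral_sub hi1 hi2] at hft
  rw [← hft]
  have e1 : (∫ x in a..b, E m x) - ((∫ x in a..b, E m x) -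
      ∫ x in a..b, E m x / (2 * Complex.I * m * x ^ 2)) =
      ∫ x in a..b, E m x / (2 * Complex.I * m * x ^ 2) := by ring
  rw [e1]
  have hc3 : ContinuousOn (fun x : ℝ => 1 / (2 * m) * (1 / x ^ 2)) (Set.uIcc a b) := by
    apply ContinuousOn.mul continuousOn_const
    apply ContinuousOn.div continuousOn_const (by fun_prop)
    intro x hx
    exact pow_ne_zero 2 (hne x hx)
  have hi3 := hc3.intervalIntegrable (μ := volume)
  have hle := intervalIntegral.norm_integral_le_of_norm_le (μ := volume) (a := a) (b := b)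
    (f := fun x : ℝ => E m x / (2 * Complex.I * m * x ^ 2))
    (g := fun x : ℝ => 1 / (2 * m) * (1 / x ^ 2)) hab
    (Filter.Eventually.of_forall (fun x _ => by
      rw [norm_div, norm_E]
      simp only [norm_mul, Complex.norm_ofNat, Complex.norm_I, Complex.norm_real, norm_pow,
        Real.norm_eq_abs, abs_of_pos hm, sq_abs, mul_one]
      rw [one_div_mul_one_div])) hi3
  refine hle.trans (le_of_eq ?_)
  have hft3 := intervalIntegral.integral_eq_sub_of_hasDerivAt (a := a) (b := b)
    (f := fun x : ℝ => -(1 / (2 * m) * (1 / x)))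
    (f' := fun x : ℝ => 1 / (2 * m) * (1 / x ^ 2)) (fun x hx => by
      have := ((hasDerivAt_inv (hne x hx)).const_mul (1 / (2 * m))).neg
      convert this using 1
      · funext y; simp [one_div]
      · simp [one_div]) hi3
  rw [hft3]
  ring

lemma norm_G (m x : ℝ) (hm : 0 < m) (hx : 0 < x) : ‖G m x‖ = 1 / (2 * m) * (1 / x) := by
  rw [G, norm_div, norm_E]
  simp only [norm_mul, Complex.norm_ofNat, Complex.norm_I, Complex.norm_real,
        Real.norm_eq_abs, abs_of_pos hm, abs_of_pos hx, mul_one]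
  rw [one_div_mul_one_div]

lemma pos_bound (m a b : ℝ) (hm : 0 < m) (ha : 0 < a) (hab : a ≤ b) :
    ‖∫ x in a..b, E m x‖ ≤ 1 / (m * a) := by
  have h := ibp m a b hm hab (Or.inl ha)
  have hb : 0 < b := lt_of_lt_of_le ha hab
  have h1 := norm_G m a hm ha
  have h2 := norm_G m b hm hb
  have h3 : ‖∫ x in a..b, E m x‖ ≤ ‖(∫ x in a..b, E m x) - (G m b - G m a)‖ + (‖G m b‖ + ‖G m a‖) := by
    calc ‖∫ x in a..b, E m x‖ = ‖((∫ x in a..b, E m x) - (G m b - G m a)) + (G m b - G m a)‖ := by
          congr 1; ring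
      _ ≤ ‖(∫ x in a..b, E m x) - (G m b - G m a)‖ + ‖G m b - G m a‖ := norm_add_le _ _
      _ ≤ _ := by gcongr; exact norm_sub_le _ _
  refine h3.trans ?_
  rw [h1, h2]
  refine (add_le_add_left h _).trans (le_of_eq ?_)
  field_simp
  ring

lemma F_bound (m t : ℝ) (hm : 0 < m) (ht : 0 ≤ t) : ‖∫ x in (0:ℝ)..t, E m x‖ ≤ 2 / √m := by
  have hs : 0 < √m := Real.sqrt_pos.2 hm
  have hss : √m * √m = m := Real.mul_self_sqrt hm.le
  have small : ∀ s, 0 ≤ s → ‖∫ x in (0:ℝ)..s, E m x‖ ≤ s := by
    intro s hs0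
    have := intervalIntegral.norm_integral_le_of_norm_le_const (a := 0) (b := s) (C := 1)
      (f := E m) (fun x _ => (norm_E m x).le)
    simpa [abs_of_nonneg hs0] using this
  rcases le_total t (1 / √m) with h | h
  · refine (small t ht).trans (h.trans ?_)
    gcongr
    norm_num
  · have hp : 0 < 1 / √m := by positivity
    have hsplit : (∫ x in (0:ℝ)..t, E m x) = (∫ x in (0:ℝ)..(1 / √m), E m x) +
        ∫ x in (1 / √m)..t, E m x :=
      (intervalIntegral.integral_add_adjacent_intervals ((continuous_E m).intervalIntegrable _ _)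
        ((continuous_E m).intervalIntegrable _ _)).symm
    rw [hsplit]
    refine (norm_add_le _ _).trans ?_
    have h1 := small (1 / √m) hp.le
    have h2 := pos_bound m (1 / √m) t hm hp h
    have h3 : 1 / (m * (1 / √m)) = 1 / √m := by
      have : m * (1 / √m) = √m := by
        rw [mul_one_div, div_eq_iff hs.ne', hss]
      rw [this]
    rw [h3] at h2
    refine (add_le_add h1 h2).trans (le_of_eq ?_)
    ring

lemma F_odd (m t : ℝ) : (∫ x in (0:ℝ)..(-t), E m x) = -∫ x in (0:ℝ)..t, E m x := by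
  have h := intervalIntegral.integral_comp_neg (a := 0) (b := t) (f := E m)
  have hE : (fun x => E m (-x)) = E m := by
    funext x; simp [E]
  have h' : (∫ x in (0:ℝ)..t, E m x) = ∫ x in (-t)..(-0), E m x := by
    rw [← h]
    simp only [E, Complex.ofReal_neg, neg_sq]
  rw [neg_zero] at h'
  rw [h', intervalIntegral.integral_symm]
  
lemma F_bound' (m t : ℝ) (hm : 0 < m) : ‖∫ x in (0:ℝ)..t, E m x‖ ≤ 2 / √m := by
  rcases le_total 0 t with h | h
  · exact F_bound m t hm h
  · have := F_odd m (-t)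
    rw [neg_neg] at this
    rw [this, norm_neg]
    exact F_bound m (-t) hm (by linarith)

end FRE_aux

open FRE_aux in
theorem FRE_proved : S_FRE := by
  refine ⟨4, by norm_num, ?_, ?_⟩
  · intro m a b hm hab
    change ‖∫ x in a..b, E m x‖ ≤ _
    have : (∫ x in a..b, E m x) = (∫ x in (0:ℝ)..b, E m x) - ∫ x in (0:ℝ)..a, E m x :=
      (intervalIntegral.integral_interval_sub_left ((continuous_E m).intervalIntegrable _ _)
        ((continuous_E m).intervalIntegrable _ _)).symm
    rw [this]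
    refine (norm_sub_le _ _).trans ((add_le_add (F_bound' m b hm) (F_bound' m a hm)).trans
      (le_of_eq ?_))
    ring
  · intro m a b k hm hab hb hk
    change ‖∫ x in a..b, E m x‖ ≤ _
    have ha : a < 0 := hab.trans hb
    have h := ibp m a b hm hab.le (Or.inr hb)
    have hE : E m b = E m a := by
      unfold E
      have : Complex.I * ((m : ℂ) * (a : ℂ) ^ 2) = Complex.I * ((m : ℂ) * (b : ℂ) ^ 2) +
          k * (2 * Real.pi * Complex.I) := by
        have hk' : (m : ℂ) * ((a : ℂ) ^ 2 - (b : ℂ) ^ 2) = 2 * Real.pi * k := by exact_mod_cast hk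
        linear_combination Complex.I * hk'
      rw [this, Complex.exp_add, Complex.exp_int_mul_two_pi_mul_I, mul_one]
    have hG : G m b - G m a = E m a / (2 * Complex.I * m) * ((1 / b - 1 / a : ℝ) : ℂ) := by
      unfold G
      rw [hE]
      have hmc : (m : ℂ) ≠ 0 := by exact_mod_cast hm.ne'
      have hac : (a : ℂ) ≠ 0 := by exact_mod_cast ha.ne
      have hbc : (b : ℂ) ≠ 0 := by exact_mod_cast hb.ne
      push_cast
      field_simp
    have hpos : 0 ≤ 1 / a - 1 / b := by
      have : 1 / a - 1 / b = (b - a) / (a * b) := by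
        have ha' := ha.ne
        have hb' := hb.ne
        field_simp
      rw [this]
      exact div_nonneg (by linarith) (mul_pos_of_neg_of_neg ha hb).le
    have hGn : ‖G m b - G m a‖ = 1 / (2 * m) * (1 / a - 1 / b) := by
      rw [hG, norm_mul, norm_div, norm_E, Complex.norm_real, Real.norm_eq_abs,
        show 1 / b - 1 / a = -(1 / a - 1 / b) by ring, abs_neg, abs_of_nonneg hpos]
      simp only [norm_mul, Complex.norm_ofNat, Complex.norm_I, Complex.norm_real,
        Real.norm_eq_abs, abs_of_pos hm, mul_one]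
    have h3 : ‖∫ x in a..b, E m x‖ ≤ ‖(∫ x in a..b, E m x) - (G m b - G m a)‖ +
        ‖G m b - G m a‖ := by
      calc ‖∫ x in a..b, E m x‖ = ‖((∫ x in a..b, E m x) - (G m b - G m a)) + (G m b - G m a)‖ := by
            congr 1; ring
        _ ≤ _ := norm_add_le _ _
    have hab' : 0 < a * b := mul_pos_of_neg_of_neg ha hb
    have h4 : 1 / (2 * m) * (1 / a - 1 / b) + 1 / (2 * m) * (1 / a - 1 / b) =
        (b - a) / (m * (a * b)) := by
      have ha' := ha.ne
      have hb' := hb.ne
      field_simp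
      ring
    refine h3.trans ((add_le_add h hGn.le).trans ?_)
    rw [h4]
    have : 0 ≤ (b - a) / (m * (a * b)) := div_nonneg (by linarith) (by positivity)
    calc (b - a) / (m * (a * b)) ≤ 4 * ((b - a) / (m * (a * b))) := by linarith
      _ = 4 * (b - a) / (m * (a * b)) := by ring

end HM
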